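import Mathlib
import Pool.Agent.H2.GS5

set_option autoImplicit false

namespace Pool.Agent.Results.MP_4977d9_al.NoUniversalAlgebraic

/-- For every countable field `F` there is no universal algebraic `F`-algebra of countable
dimension: no algebraic (not necessarily unital) associative algebra `A` of countable dimension has
every algebraic algebra of countable dimension as a homomorphic image. -/
theorem result : ∀ (F : Type) [Field F] [Countable F],
    ¬ ∃ (A : Type) (_ : NonUnitalRing A) (_ : Module F A)
        (_ : IsScalarTower F A A) (_ : SMulCommClass F A A),
        (∀ a : A, FiniteDimensional F (NonUnitalAlgebra.adjoin F {a})) ∧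
        Module.rank F A ≤ Cardinal.aleph0 ∧
        ∀ (B : Type) [NonUnitalRing B] [Module F B] [IsScalarTower F B B]
          [SMulCommClass F B B],
          (∀ b : B, FiniteDimensional F (NonUnitalAlgebra.adjoin F {b})) →
          Module.rank F B ≤ Cardinal.aleph0 →
            ∃ f : A →ₙₐ[F] B, Function.Surjective f := by
  intro F _ _
  exact Pool.Agent.H2.GS.no_alg F

end Pool.Agent.Results.MP_4977d9_al.NoUniversalAlgebraic
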